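import Mathlib

namespace Pool.Agent.Results.MP_a19137_co.ShortSubrows

/-- `sig s n = s 1 + ... + s n`. -/
def sig (s : ℕ → ℕ) : ℕ → ℕ
  | 0 => 0
  | n + 1 => sig s n + s (n + 1)

/-- `s 1, s 2, ...` is the Kolakoski sequence: a word over `{1,2}` with first letter `1` whose
`j`-th run occupies the positions `sig (j-1) + 1, ..., sig j` (so it has length `s j`), the odd
runs consisting of `1`s and the even ones of `2`s. -/
def IsKolakoski (s : ℕ → ℕ) : Prop :=
  (∀ n, 1 ≤ n → s n = 1 ∨ s n = 2) ∧ s 1 = 1 ∧
    ∀ j i, sig s j < i → i ≤ sig s (j + 1) → s i = if Even j then 1 else 2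

/-- the word `s (m+1), ..., s (m+l)`. -/
def wd (s : ℕ → ℕ) (m : ℕ) : ℕ → List ℕ
  | 0 => []
  | l + 1 => s (m + 1) :: wd s (m + 1) l

def nxt : Bool → List ℕ → List ℕ
  | _, [] => []
  | p, c :: w => List.replicate c (if p then 1 else 2) ++ nxt (!p) w

theorem wd_length (s : ℕ → ℕ) (m l : ℕ) : (wd s m l).length = l := by
  induction l generalizing m with
  | zero => rfl
  | succ l ih => simp [wd, ih]

theorem wd_append (s : ℕ → ℕ) (m k l : ℕ) : wd s m (k + l) = wd s m k ++ wd s (m + k) l := by
  induction k generalizing m with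
  | zero => simp [wd]
  | succ k ih =>
    have h : k + 1 + l = (k + l) + 1 := by ring
    rw [h]
    simp only [wd, List.cons_append]
    rw [ih (m + 1)]
    congr 3
    ring

theorem sig_add (s : ℕ → ℕ) (m l : ℕ) : sig s (m + l) = sig s m + (wd s m l).sum := by
  induction l generalizing m with
  | zero => simp [wd]
  | succ l ih =>
    have h : m + (l + 1) = (m + 1) + l := by ring
    rw [h, ih (m + 1)]
    simp only [wd, List.sum_cons, sig]
    ring

theorem wd_const (s : ℕ → ℕ) (x : ℕ) (m l : ℕ) (h : ∀ i, m < i → i ≤ m + l → s i = x) :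
    wd s m l = List.replicate l x := by
  induction l generalizing m with
  | zero => rfl
  | succ l ih =>
    simp only [wd, List.replicate_succ]
    rw [h (m + 1) (by omega) (by omega), ih (m + 1) (fun i h1 h2 => h i (by omega) (by omega))]

theorem wd_step (s : ℕ → ℕ) (hs : IsKolakoski s) (m l : ℕ) :
    wd s (sig s m) ((wd s m l).sum) = nxt (decide (Even m)) (wd s m l) := by
  induction l generalizing m with
  | zero => rfl
  | succ l ih =>
    simp only [wd, List.sum_cons, nxt]
    rw [wd_append]
    congr 1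
    · have := wd_const s (if Even m then 1 else 2) (sig s m) (s (m + 1))
        (fun i h1 h2 => hs.2.2 m i h1 (by simpa [sig] using h2))
      rw [this]
      by_cases hm : Even m <;> simp [hm]
    · have h1 : sig s m + s (m + 1) = sig s (m + 1) := rfl
      rw [h1, ih (m + 1)]
      congr 1
      by_cases hm : Even m
      · have : ¬ Even (m + 1) := by rw [Nat.even_add_one]; simpa using hm
        simp [hm, this]
      · have : Even (m + 1) := by rw [Nat.even_add_one]; exact hm
        simp [hm, this]

/-- all continuations of the word reach odd length within `f` steps. -/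
def chk : ℕ → List ℕ → Bool
  | 0, w => w.length % 2 == 1
  | f + 1, w => (w.length % 2 == 1) || (chk f (nxt true w) && chk f (nxt false w))

theorem chk_sound (s : ℕ → ℕ) (hs : IsKolakoski s) (f : ℕ) (m l : ℕ)
    (h : chk f (wd s m l) = true) :
    ∃ k, k ≤ f ∧ Odd ((sig s)^[k] (m + l) - (sig s)^[k] m) := by
  induction f generalizing m l with
  | zero =>
    refine ⟨0, le_rfl, ?_⟩
    simp only [chk, wd_length, beq_iff_eq] at h
    simp only [Function.iterate_zero, id]
    rw [Nat.add_sub_cancel_left, Nat.odd_iff]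
    exact h
  | succ f ih =>
    simp only [chk, wd_length, Bool.or_eq_true, beq_iff_eq, Bool.and_eq_true] at h
    rcases h with h | ⟨h1, h2⟩
    · refine ⟨0, by omega, ?_⟩
      simp only [Function.iterate_zero, id]
      rw [Nat.add_sub_cancel_left, Nat.odd_iff]
      exact h
    · have h3 : chk f (nxt (decide (Even m)) (wd s m l)) = true := by
        cases hd : decide (Even m)
        · exact h2
        · exact h1
      rw [← wd_step s hs] at h3
      obtain ⟨k, hk, hodd⟩ := ih _ _ h3
      refine ⟨k + 1, by omega, ?_⟩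
      rw [Function.iterate_succ, Function.comp, Function.comp, sig_add]
      exact hodd

/-- words over {1,2} of length n with no three equal consecutive letters -/
def good : List ℕ → Bool
  | a :: b :: c :: _ => !(a == b && b == c)
  | _ => true

def cands : ℕ → List (List ℕ)
  | 0 => [[]]
  | n + 1 => (cands n).flatMap fun w => [1 :: w, 2 :: w].filter good

theorem sig_ge (s : ℕ → ℕ) (hs : IsKolakoski s) (n : ℕ) : n ≤ sig s n := by
  induction n with
  | zero => simp
  | succ n ih =>
    simp only [sig]
    rcases hs.1 (n + 1) (by omega) with h | h <;> omega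

theorem exists_run (s : ℕ → ℕ) (hs : IsKolakoski s) (i : ℕ) (hi : 1 ≤ i) :
    ∃ j, sig s j < i ∧ i ≤ sig s (j + 1) := by
  classical
  have hex : ∃ j, i ≤ sig s j := ⟨i, sig_ge s hs i⟩
  have h1 := Nat.find_spec hex
  have h2 := fun k => Nat.find_min hex (m := k)
  set j := Nat.find hex
  cases hj : j with
  | zero => rw [hj] at h1; simp only [sig] at h1; omega
  | succ k =>
    refine ⟨k, ?_, ?_⟩
    · have := h2 k (by omega)
      omega
    · rw [← hj]; exact h1

theorem no_three (s : ℕ → ℕ) (hs : IsKolakoski s) (i : ℕ) (hi : 1 ≤ i)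
    (h1 : s i = s (i + 1)) (h2 : s (i + 1) = s (i + 2)) : False := by
  obtain ⟨j, hj1, hj2⟩ := exists_run s hs i hi
  have hsi := hs.2.2 j i hj1 hj2
  have hlen : sig s (j + 1) ≤ sig s j + 2 := by
    simp only [sig]
    rcases hs.1 (j + 1) (by omega) with h | h <;> omega
  have hlen2 : sig s (j + 1) + 1 ≤ sig s (j + 2) := by
    show sig s (j + 1) + 1 ≤ sig s (j + 1) + s (j + 2)
    rcases hs.1 (j + 2) (by omega) with h | h <;> omega
  have hnext := hs.2.2 (j + 1) (sig s (j + 1) + 1) (by omega) hlen2
  have heq : s (sig s (j + 1) + 1) = s i := by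
    rcases Nat.lt_or_ge (sig s (j + 1)) (i + 1) with h | h
    · have : sig s (j + 1) + 1 = i + 1 := by omega
      rw [this, h1]
    · have : sig s (j + 1) + 1 = i + 2 := by omega
      rw [this, ← h2, ← h1]
  rw [heq, hsi] at hnext
  by_cases hj : Even j
  · have : ¬ Even (j + 1) := by rw [Nat.even_add_one]; simpa using hj
    simp [hj, this] at hnext
  · have : Even (j + 1) := by rw [Nat.even_add_one]; exact hj
    simp [hj, this] at hnext

theorem wd_mem (s : ℕ → ℕ) (hs : IsKolakoski s) (m l : ℕ) : wd s m l ∈ cands l := by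
  induction l generalizing m with
  | zero => simp [wd, cands]
  | succ l ih =>
    simp only [cands, List.mem_flatMap, List.mem_filter]
    refine ⟨wd s (m + 1) l, ih (m + 1), ?_, ?_⟩
    · rcases hs.1 (m + 1) (by omega) with h | h
      · simp [wd, h]
      · simp [wd, h]
    · match l with
      | 0 => simp [wd, good]
      | 1 => simp [wd, good]
      | l + 2 =>
        simp only [wd, good, Bool.not_eq_true', Bool.and_eq_false_iff, beq_eq_false_iff_ne]
        by_contra hcon
        push Not at hcon
        exact no_three s hs (m + 1) (by omega) hcon.1 hcon.2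

theorem check_all : ∀ l < 10, 1 ≤ l → ∀ w ∈ cands l, chk 9 w = true := by
  decide +kernel

theorem wd_eq_iff (s : ℕ → ℕ) (m n l : ℕ) (h : wd s m l = wd s n l) (i : ℕ) (h1 : 1 ≤ i)
    (h2 : i ≤ l) : s (m + i) = s (n + i) := by
  induction l generalizing m n i with
  | zero => omega
  | succ l ih =>
    simp only [wd, List.cons.injEq] at h
    obtain ⟨ha, hb⟩ := h
    obtain ⟨i, rfl⟩ : ∃ k, i = k + 1 := ⟨i - 1, by omega⟩
    rcases Nat.eq_zero_or_pos i with h0 | h0
    · subst h0; exact ha
    · have := ih (m + 1) (n + 1) hb i h0 (by omega)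
      have e1 : m + 1 + i = m + (i + 1) := by ring
      have e2 : n + 1 + i = n + (i + 1) := by ring
      rw [e1, e2] at this
      exact this

/-- the lengths of the common factors: `P 0 = 0` and `P (j+1)` is one more than the sum of the
`P j` letters following position `sig^j m`. -/
def ext (s : ℕ → ℕ) (m : ℕ) : ℕ → ℕ
  | 0 => 0
  | j + 1 => (sig s ((sig s)^[j] m + ext s m j) - (sig s)^[j + 1] m) + 1

theorem ext_succ (s : ℕ → ℕ) (m j : ℕ) :
    ext s m (j + 1) = (wd s ((sig s)^[j] m) (ext s m j)).sum + 1 := by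
  show (sig s ((sig s)^[j] m + ext s m j) - (sig s)^[j + 1] m) + 1 = _
  rw [sig_add, Function.iterate_succ_apply', Nat.add_sub_cancel_left]

theorem last_letter (s : ℕ → ℕ) (hs : IsKolakoski s) (m : ℕ) :
    s (sig s m + 1) = if Even m then 1 else 2 := by
  apply hs.2.2 m _ (by omega)
  show sig s m + 1 ≤ sig s m + s (m + 1)
  rcases hs.1 (m + 1) (by omega) with h | h <;> omega

theorem sig_mono (s : ℕ → ℕ) : Monotone (sig s) :=
  monotone_nat_of_le_succ fun n => by simp only [sig]; omega

theorem window (s : ℕ → ℕ) (hs : IsKolakoski s) (m n : ℕ) (hmn : m ≤ n)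
    (hreg : ∀ k, Even ((sig s)^[k] n - (sig s)^[k] m)) (j : ℕ) :
    wd s ((sig s)^[j] m) (ext s m j) = wd s ((sig s)^[j] n) (ext s m j) := by
  have hpar : ∀ k, (Even ((sig s)^[k] m) ↔ Even ((sig s)^[k] n)) := by
    intro k
    have hle : (sig s)^[k] m ≤ (sig s)^[k] n := (sig_mono s).iterate k hmn
    have h1 := hreg k
    have h2 := Nat.even_sub hle |>.mp h1
    exact h2.symm
  induction j with
  | zero => rfl
  | succ j ih =>
    rw [ext_succ, wd_append, wd_append, Function.iterate_succ_apply',
      Function.iterate_succ_apply', wd_step s hs, ih, wd_step s hs]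
    have hp := hpar j
    congr 1
    · congr 1
      simp only [hp]
    · simp only [wd, List.cons.injEq, and_true]
      have e1 : sig s ((sig s)^[j] m) + (wd s ((sig s)^[j] n) (ext s m j)).sum
          = sig s ((sig s)^[j] m + ext s m j) := by rw [sig_add, ih]
      have e2 : sig s ((sig s)^[j] n) + (wd s ((sig s)^[j] n) (ext s m j)).sum
          = sig s ((sig s)^[j] n + ext s m j) := by rw [sig_add]
      rw [e1, e2, last_letter s hs, last_letter s hs]
      simp only [Nat.even_add, hp]

theorem sum_ge (s : ℕ → ℕ) (hs : IsKolakoski s) (m l : ℕ) : l ≤ (wd s m l).sum := by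
  induction l generalizing m with
  | zero => simp
  | succ l ih =>
    simp only [wd, List.sum_cons]
    have := ih (m + 1)
    rcases hs.1 (m + 1) (by omega) with h | h <;> omega

theorem ext_ge (s : ℕ → ℕ) (hs : IsKolakoski s) (m j : ℕ) : j ≤ ext s m j := by
  induction j with
  | zero => simp
  | succ j ih =>
    rw [ext_succ]
    have := sum_ge s hs ((sig s)^[j] m) (ext s m j)
    omega

theorem result (s : ℕ → ℕ) (hs : IsKolakoski s) :
    (∀ a b, 1 ≤ a → a ≤ b → b - a + 1 ≤ 9 →
      ∃ k, k ≤ 9 ∧ Odd ((sig s)^[k] b - (sig s)^[k] (a - 1))) ∧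
    (∀ a b, 1 ≤ a → a ≤ b → (∀ k, Even ((sig s)^[k] b - (sig s)^[k] (a - 1))) →
      ∃ P : ℕ → ℕ, P 0 = 0 ∧
        (∀ j, P (j + 1) =
          (sig s ((sig s)^[j] (a - 1) + P j) - (sig s)^[j + 1] (a - 1)) + 1) ∧
        (∀ j, j ≤ P j) ∧
        ∀ j i, 1 ≤ i → i ≤ P j →
          s ((sig s)^[j] (a - 1) + i) = s ((sig s)^[j] b + i)) := by
  refine ⟨?_, ?_⟩
  · intro a b ha hab hlen
    obtain ⟨l, hl⟩ : ∃ l, b = (a - 1) + l := ⟨b - (a - 1), by omega⟩
    rw [hl]
    exact chk_sound s hs 9 (a - 1) l (check_all l (by omega) (by omega) _ (wd_mem s hs _ _))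
  · intro a b ha hab hreg
    refine ⟨ext s (a - 1), rfl, fun j => rfl, ext_ge s hs (a - 1), ?_⟩
    intro j i h1 h2
    exact wd_eq_iff s _ _ _ (window s hs (a - 1) b (by omega) hreg j) i h1 h2

end Pool.Agent.Results.MP_a19137_co.ShortSubrows
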